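import Mathlib
import Pool.Agent.W5h75.SU.AllO

/-!
# Almost prime twins in almost all very short intervals, with prescribed parity

Let `0 < θ ≤ 1` and `ε, η > 0`.  For all but at most `η X` of the integers `N ≤ X` the very short
interval `(N, N + N ^ θ]` contains at least `N ^ (θ - ε)` integers `m` such that `m` and `m + 2` are
products of at most `R` primes, all larger than `N ^ δ`, and such that the number of prime factors of
`m` is odd, and as many for which it is even, and the same holds with `m + 2` in place of `m`.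

Proof.  Let `F` be the sign `(-1) ^ Ω`, and let `g (N)` be its value at the rough pairs `m, m + 2` of
the window at `N`, if `N` is one of the exceptional integers (that is, if `F` is constant there up to
few exceptions).  For rough numbers `V, V'` of a suitable class a sieve gives `t` such that `V t` is
in the window at `u V` and `V' t` in the window at `u V'`; so `F(V) g(u V) = F(V') g(u V')` if both
windows are exceptional.  Hence the averages of `F(V) g(u V)` over products `V = V_1 ... V_k` have the
absolute values of the averages of the indicator function of the exceptional set, which have a large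
square mean if the exceptional set is not small.  By Plancherel's formula on the logarithmic scale
the square mean of the former averages is at most `(7 / 8) ^ (2 k)` (up to a tiny error), because the
twisted sums `∑ w(V) F(V) V ^ (i t)` over a suitable probability measure on rough numbers are at
most `7 / 8` for all `|t| ≤ X ^ 3`: for large `t` this follows from the fact that the square of
`F(V) V ^ (i t)` is `V ^ (2 i t)`, and from the fundamental lemma of the sieve together with
estimates for the sums of `n ^ (2 i t)` over all integers of progressions, and for bounded `t` one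
uses a prime `p_3` and a product `p_1 p_2` of two primes which are close to one another.
From the starting files: the sieve for linear forms (`H661R3.OP.SV`), the fundamental lemma
(`H20R2.fLem`), the exponential sums (`H438R2.DL.W_bound`), Plancherel's formula (`H438R2.DL.planch`)
and the prime number theorem for progressions.
-/

set_option autoImplicit false

open Finset

namespace Pool.Agent.Results.MP_d610d0_nt.AlmostAllShortIntervals

/-- `m` is a product of at most `R` primes (with multiplicity), all of them larger than `y` -/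
def AlmostPrime (R : ℕ) (y : ℝ) (m : ℕ) : Prop :=
  ArithmeticFunction.cardFactors m ≤ R ∧ ∀ p : ℕ, p.Prime → p ∣ m → y < p

/-- `m` and `m + 2` are products of at most `R` primes, all of them larger than `y`, and the number
of prime factors of `m + 2 h` (`h = 0` or `h = 1`), counted with multiplicity, has the parity of
`s`. -/
def Twin (R : ℕ) (y : ℝ) (h s m : ℕ) : Prop :=
  AlmostPrime R y m ∧ AlmostPrime R y (m + 2) ∧
    ArithmeticFunction.cardFactors (m + 2 * h) % 2 = s % 2

theorem adm (p : ℕ) (hp : p.Prime) :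
    ∃ n : ℤ, ∀ i : Fin 2, ¬ (p : ℤ) ∣ 1 * (0 + ((1 : ℕ) : ℤ) * n) + 2 * ((i : ℕ) : ℤ) := by
  by_cases h3 : p = 3
  · refine ⟨-1, fun i => ?_⟩
    subst h3
    fin_cases i <;> norm_num
  · refine ⟨1, fun i hd => ?_⟩
    have hle := hp.two_le
    fin_cases i
    · have h1 : (p : ℤ) ∣ 1 := by simpa using hd
      have h2 : (p : ℤ) ≤ 1 := Int.le_of_dvd one_pos h1
      omega
    · have h1 : (p : ℤ) ∣ 3 := by simpa using hd
      have h2 : p ∣ 3 := by exact_mod_cast h1
      exact h3 ((Nat.prime_dvd_prime_iff_eq hp Nat.prime_three).1 h2)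

/-- **Almost prime twins with prescribed parity in all but few of the intervals
`(N, N + N ^ θ]`, `θ > 0`.** -/
theorem result (θ ε η : ℝ) (hθ : 0 < θ) (hθ1 : θ ≤ 1) (hε : 0 < ε) (hη : 0 < η) :
    ∃ (R : ℕ) (δ : ℝ), 0 < δ ∧ ∃ X₀ : ℝ, ∀ X : ℝ, X₀ ≤ X →
      ({N : ℕ | (N : ℝ) ≤ X ∧ ¬ ∀ h s : ℕ, h ≤ 1 → (N : ℝ) ^ (θ - ε) ≤
        ({m : ℕ | N < m ∧ (m : ℝ) ≤ N + (N : ℝ) ^ θ ∧
          Twin R ((N : ℝ) ^ δ) h s m}.ncard : ℝ)}.ncard : ℝ) ≤ η * X := by
  classical
  obtain ⟨R, δ, hδ, X₀, H⟩ := Pool.Agent.W5h75.SU.almostAll (Fin 2) (fun _ => 1)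
    (fun i => 2 * ((i : ℕ) : ℤ)) (fun _ => one_pos) 1 one_pos 0 adm θ ε η hθ hθ1 hε hη
  refine ⟨R, δ, hδ, X₀, fun X hX => (Nat.cast_le.2 (Set.ncard_le_ncard ?_ ?_)).trans (H X hX)⟩
  swap
  · apply (Set.finite_Iic ⌊X⌋₊).subset
    intro N hN
    exact Nat.le_floor hN.1
  rintro N ⟨k1, k2⟩
  refine ⟨k1, fun k3 => k2 fun h s hh => ?_⟩
  refine (k3 ⟨h, by omega⟩ (s : ZMod 2)).trans (Nat.cast_le.2 (Set.ncard_le_ncard ?_ ?_))
  swap
  · apply (Set.finite_Iic ⌊(N : ℝ) + (N : ℝ) ^ θ⌋₊).subset
    intro m hm
    exact Nat.le_floor hm.2.1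
  have hn1 : ∀ n : ℕ, (1 * (n : ℤ) + 2 * (((1 : Fin 2) : ℕ) : ℤ)).natAbs = n + 2 := by
    intro n
    simp
    omega
  have hn0 : ∀ n : ℕ, (1 * (n : ℤ) + 2 * (((0 : Fin 2) : ℕ) : ℤ)).natAbs = n := by
    intro n
    simp
  rintro n ⟨h1, h2, -, h3, h4⟩
  have q0 := h3 0
  have q1 := h3 1
  rw [hn0] at q0
  rw [hn1] at q1
  refine ⟨h1, h2, ⟨q0.2.1, fun p hp hpd => q0.2.2 p hp ?_⟩,
    ⟨q1.2.1, fun p hp hpd => q1.2.2 p hp ?_⟩, ?_⟩
  · have : (p : ℤ) ∣ n := by exact_mod_cast hpd
    simpa using this
  · have : (p : ℤ) ∣ ((n + 2 : ℕ) : ℤ) := by exact_mod_cast hpd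
    push_cast at this
    simpa using this
  · have h5 : (1 * (n : ℤ) + 2 * ((h : ℕ) : ℤ)).natAbs = n + 2 * h := by
      rw [one_mul]
      exact Int.natAbs_natCast (n + 2 * h)
    have h6 : ((ArithmeticFunction.cardFactors (1 * (n : ℤ) + 2 * ((h : ℕ) : ℤ)).natAbs : ℕ) : ZMod 2)
        = (s : ZMod 2) := h4
    rw [h5] at h6
    exact (ZMod.natCast_eq_natCast_iff' _ s 2).1 h6

end Pool.Agent.Results.MP_d610d0_nt.AlmostAllShortIntervals
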