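import Pool.Agent.W5h31.CV.CV2

/-!
# Chen primes between consecutive cubes: the expected order, and a relative Szemeredi theorem

Let `u > 1` (`u = 3`: cubes) and let `T` be an admissible set of `r` integers with singular series `𝔖(T)`.

(1) Let `0, 2 ∈ T`. For a positive proportion of all `n ≤ X` the number of the primes `q` with `q`, `q + 2`
strictly between `n ^ u` and `(n + 1) ^ u` for which `q + 2` is a product of at most two primes, and all
`q + t`, `t ∈ T`, are products of at most `j = j(r)` primes (all these primes are larger than a power of `n`),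
is at least a constant times the expected number `n ^ (u - 1) 𝔖(T) / (log n) ^ r`.

(2) For all large `n` let `S` be any set of integers `q` between `n ^ u` and `(n + 1) ^ u` for which all
`|q + t|`, `t ∈ T`, are primes or have no prime factor `≤ n ^ (u / j)`. The number of `k`-term progressions
in `S` with differences at most `D` is at most a constant times `n ^ (u - 1) D (𝔖(T) / (log n) ^ r) ^ k`
for every `k` and all `D` between a power of `log n` and `n ^ (u - 1)`; it has this order if and only if `S`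
has a positive proportion of the expected number of elements. In particular this holds for every subset of
the set of the twin primes between `n ^ 3` and `(n + 1) ^ 3` (`T = {0, 2}`), and of the set in (1).

Everything is uniform in `T ⊆ [-X ^ u, X ^ u]`.

Proof. Chen's theorem for tuples in windows of length `x / 4` and the bounds for the number of
progressions in sifted sets in windows of length `x ^ θ` (starting files, `Pool.Agent.Y843.AC.HL`); by the
case `k = 1` no interval between consecutive `u`-th powers contains more than a constant times its share.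
-/

set_option autoImplicit false

open Filter Finset

namespace Pool.Agent.Results.MP_d610d0_nt.ChenBetweenPowers

/-- The number of the residue classes modulo `q` occupied by `T`. -/
def nu (T : Finset ℤ) (q : ℕ) : ℕ := (T.image (fun t : ℤ => t % q)).card

/-- The local factor `(1 - ν(q) / q) (1 - 1 / q) ^ (-|T|)`. -/
noncomputable def loc (T : Finset ℤ) (q : ℕ) : ℝ := (1 - (nu T q : ℝ) / q) / (1 - 1 / (q : ℝ)) ^ T.card

/-- The singular series `𝔖(T)`, the product of the local factors over all primes. -/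
noncomputable def Sing (T : Finset ℤ) : ℝ := ∏' q : Nat.Primes, loc T q

/-- The admissible sets of `r` integers of absolute value at most `x`. -/
def Tuples (r x : ℕ) : Set (Finset ℤ) :=
  {T | T.card = r ∧ (∀ q : ℕ, q.Prime → nu T q < q) ∧ ∀ t ∈ T, |t| ≤ x}

/-- `m ≠ 0` is up to the sign a product of at most `j` primes, all of them larger than `w`. -/
def Almost (j : ℕ) (w : ℝ) (m : ℤ) : Prop :=
  m ≠ 0 ∧ m.natAbs.primeFactorsList.length ≤ j ∧ ∀ q : ℕ, q.Prime → (q : ℤ) ∣ m → w < q

open Classical in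
/-- The primes `q` with `q`, `q + 2` strictly between `n ^ u` and `(n + 1) ^ u` for which `q + 2` is a product
of at most two primes, both larger than `n ^ (u / 9)`, and all `q + t`, `t ∈ T`, are products of at most
`j` primes larger than `n ^ (u / j)`. -/
noncomputable def Chen (u : ℝ) (j : ℕ) (T : Finset ℤ) (n : ℕ) : Finset ℕ :=
  (range ⌈((n : ℝ) + 1) ^ u⌉₊).filter (fun q => q.Prime ∧ (n : ℝ) ^ u < q ∧
    (q : ℝ) + 2 < ((n : ℝ) + 1) ^ u ∧ Almost 2 ((n : ℝ) ^ (u / 9)) (q + 2) ∧
    ∀ t ∈ T, Almost j ((n : ℝ) ^ (u / j)) (q + t))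

/-- `S` consists of integers `q` with `n ^ u < q < (n + 1) ^ u` such that all `|q + t|`, `t ∈ T`, are primes or
all prime factors of all `q + t`, `t ∈ T`, are larger than `n ^ (u / j)`. -/
def Sifted (u : ℝ) (j : ℕ) (T : Finset ℤ) (n : ℕ) (S : Finset ℕ) : Prop :=
  ∀ q ∈ S, (n : ℝ) ^ u < q ∧ (q : ℝ) < ((n : ℝ) + 1) ^ u ∧
    ((∀ t ∈ T, ((q : ℤ) + t).natAbs.Prime) ∨
      ∀ p : ℕ, p.Prime → ∀ t ∈ T, (p : ℤ) ∣ q + t → (n : ℝ) ^ (u / j) < p)

open Classical in
/-- The number of the progressions `a, a + d, …, a + (k - 1) d` in `S` with `1 ≤ d ≤ D`. -/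
noncomputable def AP (k D : ℕ) (S : Finset ℕ) : ℕ :=
  ((S ×ˢ Icc 1 D).filter (fun q => ∀ j < k, q.1 + j * q.2 ∈ S)).card

/-- The expected density `𝔖(T) / (log n) ^ |T|`. -/
noncomputable def g (T : Finset ℤ) (n : ℕ) : ℝ := Sing T / Real.log n ^ T.card

/-- **Chen primes and twin primes between consecutive powers.** Let `u > 1`. For every `r` there are `j` and
`c > 0` such that:
(1) for all large `X` and all admissible sets `T ∋ 0, 2` of `r` integers of absolute value at most `X ^ u`, at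
least `c X` of the `n` with `X / 8 ≤ n < X` have at least `c n ^ (u - 1) 𝔖(T) / (log n) ^ r` elements
in `Chen u j T n`;
(2) for all `k ≥ 1` and `δ > 0` there are `c'`, `C' > 0` and `B` such that, for all large `X`, all
admissible sets `T` of `r` integers of absolute value at most `X ^ u`, all `n` with `X / 8 ≤ n < X`, all
`D` with `(log n) ^ B ≤ D ≤ n ^ (u - 1)` and all sets `S` with `Sifted u j T n S`: the number of the
`k`-term progressions in `S` with differences at most `D` is at most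
`C' n ^ (u - 1) D (𝔖(T) / (log n) ^ r) ^ k`; it is at least `c' n ^ (u - 1) D (𝔖(T) / (log n) ^ r) ^ k` if
`S` has at least `δ n ^ (u - 1) 𝔖(T) / (log n) ^ r` elements; and `S` has at least
`c' n ^ (u - 1) 𝔖(T) / (log n) ^ r` elements if this number is at least
`δ n ^ (u - 1) D (𝔖(T) / (log n) ^ r) ^ k`. -/
theorem result (u : ℝ) (hu : 1 < u) (r : ℕ) : ∃ j : ℕ, 1 ≤ j ∧ ∃ c : ℝ, 0 < c ∧
    (∀ᶠ X : ℕ in atTop, ∀ T ∈ Tuples r ⌊(X : ℝ) ^ u⌋₊, (0 : ℤ) ∈ T → (2 : ℤ) ∈ T →
      c * X ≤ ({n : ℕ | n < X ∧ X ≤ 8 * n ∧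
        c * ((n : ℝ) ^ (u - 1) * g T n) ≤ ((Chen u j T n).card : ℝ)}.ncard : ℝ)) ∧
    (∀ (T : Finset ℤ) (n : ℕ), Sifted u j T n (Chen u j T n)) ∧
    ∀ (k : ℕ) (δ : ℝ), 1 ≤ k → 0 < δ → ∃ c' C' : ℝ, 0 < c' ∧ 0 < C' ∧ ∃ B : ℕ, ∀ᶠ X : ℕ in atTop,
      ∀ T ∈ Tuples r ⌊(X : ℝ) ^ u⌋₊, ∀ n : ℕ, n < X → X ≤ 8 * n →
      ∀ D : ℕ, Real.log n ^ B ≤ D → (D : ℝ) ≤ (n : ℝ) ^ (u - 1) →
      ∀ S : Finset ℕ, Sifted u j T n S →
        (AP k D S : ℝ) ≤ C' * ((n : ℝ) ^ (u - 1) * D * g T n ^ k) ∧
        (δ * ((n : ℝ) ^ (u - 1) * g T n) ≤ S.card →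
          c' * ((n : ℝ) ^ (u - 1) * D * g T n ^ k) ≤ (AP k D S : ℝ)) ∧
        (δ * ((n : ℝ) ^ (u - 1) * D * g T n ^ k) ≤ (AP k D S : ℝ) →
          c' * ((n : ℝ) ^ (u - 1) * g T n) ≤ S.card) := by
  classical
  have tup : ∀ (x : ℕ) (T : Finset ℤ), T ∈ Tuples r x → Pool.Agent.Y843.AC.HL.Tup r x T :=
    fun x T h => ⟨h.1, h.2.1, h.2.2⟩
  obtain ⟨j, hj, c, hc, hA⟩ := Pool.Agent.W5h31.CV.partA u hu r
  refine ⟨j, hj, c, hc, ?_, ?_, ?_⟩
  · filter_upwards [hA] with X hX T hT h0 h2
    have h1 := hX T (tup _ T hT) h0 h2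
    refine h1.trans ?_
    rw [Nat.cast_le, ← Set.ncard_coe_finset]
    apply Set.ncard_le_ncard _ ((Set.finite_Iio X).subset fun n hn => hn.1)
    intro n hn
    rw [mem_coe, mem_filter, mem_range] at hn
    exact ⟨hn.1, hn.2.1, hn.2.2⟩
  · intro T n q hq
    unfold Chen at hq
    rw [mem_filter] at hq
    obtain ⟨-, -, h1, h2, -, h3⟩ := hq
    exact ⟨h1, by linarith, Or.inr fun p hp t ht hd => (h3 t ht).2.2 p hp hd⟩
  · intro k δ hk hδ
    obtain ⟨c', C', hc', hC', B, hB⟩ := Pool.Agent.W5h31.CV.partB u hu r j k hj hk δ hδ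
    refine ⟨c', C', hc', hC', B, ?_⟩
    filter_upwards [hB] with X hX T hT n hnX hXn D hD1 hD2 S hS
    exact hX T (tup _ T hT) n hnX hXn D hD1 hD2 S hS

end Pool.Agent.Results.MP_d610d0_nt.ChenBetweenPowers
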