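import Pool.Agent.W5h31.CU.CU7

/-!
# Clusters of primes `q` with almost prime `q + 2` between consecutive cubes

Let `u > 1` (`u = 3`: cubes), `m ≥ 0`, and let `a (a + 2)` be coprime to the squarefree number `Q`.  For a
positive proportion of all `n` there are at least `n ^ (u - 1) / (log n) ^ A` clusters of `m + 1` primes
`q 0 < ⋯ < q m` of bounded length, all congruent to `a` modulo `Q`, such that all `q j`, `q j + 2` are strictly
between `n ^ u` and `(n + 1) ^ u` and all `q j + 2` have at most `R` prime factors, all at least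
`n ^ (1 / R)`; moreover no prime `x` between them has this last property, and arbitrarily many of these
clusters form a progression with difference at most `(log n) ^ B`.

Proof.  A variant of the Maynard-Tao sieve (starting files, `Pool.Agent.R498`; only `X (X + 2)`
free of small prime factors at all places, primes at many places) gives in `(N, 2 N]`
at least a constant times the expected number (by the sieve) of arguments with a fixed pattern of the
primes.  Upper bound sieves in short intervals and the comparison of sieve products at different levels show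
that no interval between consecutive `u`-th powers contains more than a constant times its share, so
a positive proportion of them contain at least a positive proportion of their share.  The progressions
are from the relative Szemerédi theorem of the starting files (`Pool.Agent.Y677.RSZ.eng_all`) in
these intervals.
-/

set_option autoImplicit false

open Filter

namespace Pool.Agent.Results.MP_d610d0_nt.ClustersBetweenPowers

/-- the primes `q` such that `q + 2` has no prime factor smaller than `y` -/
def RoughTwins (y : ℝ) : Set ℕ := {q : ℕ | q.Prime ∧ ∀ r : ℕ, r.Prime → r ∣ q + 2 → y ≤ r}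

/-- `q 0 < ⋯ < q m` are consecutive elements of the set of the primes `q` such that `q + 2` has no prime
factor below `n ^ (1 / R)`, `q m ≤ q 0 + C`, all `q j` are congruent to `a` modulo `Q`, all `q j` and
`q j + 2` are strictly between `n ^ u` and `(n + 1) ^ u`, all `q j + 2` have at most `R` prime factors (with
multiplicity), and for all primes `p` from `q 0` to `q m` one of `p + 2` and `p - 2` has no prime factor
below `n ^ (1 / R)`. -/
def Cluster (u : ℝ) (Q a m R C n : ℕ) (q : ℕ → ℕ) : Prop :=
  (n : ℝ) ^ u < q 0 ∧ ((q m + 2 : ℕ) : ℝ) < ((n : ℝ) + 1) ^ u ∧ q m ≤ q 0 + C ∧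
  (∀ j ≤ m, q j ∈ RoughTwins ((n : ℝ) ^ (1 / (R : ℝ))) ∧ (q j + 2).primeFactorsList.length ≤ R ∧
    q j ≡ a [MOD Q]) ∧
  (∀ j < m, q j < q (j + 1) ∧ ∀ x ∈ RoughTwins ((n : ℝ) ^ (1 / (R : ℝ))), q j < x → q (j + 1) ≤ x) ∧
  ∀ p : ℕ, p.Prime → q 0 ≤ p → p ≤ q m → p ∈ RoughTwins ((n : ℝ) ^ (1 / (R : ℝ))) ∨
    ∀ r : ℕ, r.Prime → r ∣ p - 2 → (n : ℝ) ^ (1 / (R : ℝ)) ≤ r

/-- **Clusters of primes `q` with almost prime `q + 2` between consecutive powers.** Let `u > 1`, and let
`a (a + 2)` be coprime to the squarefree number `Q`. For every `m` there are `R`, `C`, `A` and `c > 0`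
such that for every `l` there is `B` such that for all large `T` at least `c T` of the `n ≤ T` have both of the
following properties: between `n ^ u` and `(n + 1) ^ u` there are at least
`n ^ (u - 1) / (log n) ^ A` clusters of `m + 1` primes, and `l` of them are translates of each other
by `d, 2 d, …`, where `1 ≤ d ≤ (log n) ^ B`. -/
theorem result (u : ℝ) (hu : 1 < u) (Q a m : ℕ) (hQ : Squarefree Q) (ha : (a * (a + 2)).Coprime Q) :
    ∃ (R C A : ℕ) (c : ℝ), 1 ≤ R ∧ 0 < c ∧ ∀ l : ℕ, ∃ B : ℕ, ∀ᶠ T : ℕ in atTop,
      c * T ≤ ({n : ℕ | n ≤ T ∧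
        (n : ℝ) ^ (u - 1) / Real.log n ^ A ≤
          ({q₀ : ℕ | ∃ q : ℕ → ℕ, q 0 = q₀ ∧ Cluster u Q a m R C n q}.ncard : ℝ) ∧
        ∃ (q : ℕ → ℕ) (d : ℕ), 1 ≤ d ∧ (d : ℝ) ≤ Real.log n ^ B ∧
          ∀ i < l, Cluster u Q a m R C n (fun j => q j + i * d)}.ncard : ℝ) :=
  Pool.Agent.W5h31.CU.main u hu Q a m hQ ha

end Pool.Agent.Results.MP_d610d0_nt.ClustersBetweenPowers
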