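import Mathlib
import Pool.Agent.W5h75.ST.Real

/-!
# Almost prime twins between consecutive cubes, with prescribed parity

Let `1 / 2 < θ ≤ 1` and `ε > 0`.  For all large `x` EVERY interval `(x, x + x ^ θ]` contains at
least `x ^ (θ - ε)` integers `m` such that `m` and `m + 2` are products of at most `R` primes, all
larger than `x ^ δ`, and such that the number of prime factors of `m` is odd; the same holds with
even in place of odd, and with `m + 2` in place of `m`.  In particular (`θ = 2 / 3`) there are at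
least `n ^ (2 - ε)` such pairs `m, m + 2` between `n ^ 3` and `(n + 1) ^ 3`, for ALL `n ≥ n₀`.
The exponents `θ` and `2` are best possible.

Proof.  Let `F` be the parity of the number of prime factors, and suppose that `F (m) = c` for all
but `x ^ (θ - ε)` of the rough pairs `m, m + 2` of the interval.
1. Let `M` be slightly larger than `x ^ (1 - θ)`.  As every `m` has a bounded number of divisors, all
but few of the rough numbers `V` of size `M` have few multiples among the exceptional `m`.  For two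
such numbers `V, V'` at distance at most `M ^ c'` a sieve for four linear forms gives many `t` such
that `V t` and `V' t` both lie in the interval and `V t, V t + 2, V' t, V' t + 2` are rough (`t` in a
suitable residue class).  For one of these `t` neither `V t` nor `V' t` is exceptional, and so
`F (V) = F (V')`.
2. So `F` is constant on almost all of the rough numbers of almost all the windows
`(N, N + M ^ c']` with `N` of size `M`.  This is impossible by the theorem on very short intervals: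
for rough numbers `v_i = v + i D`, `i ≤ 2 ^ j`, the windows at `N` and at `N` times the exponential
of the `2 ^ j`-th difference of the logarithms `log v_i` overlap, which gives
`F (v_0) = F (v_(2 ^ j))`; sieving for `D` one gets `F (v) = F (v')` for all rough `v, v'` of a class
which are close, and therefore in a long range, which is absurd since `F (p v) = F (v) + 1`.
The sieve is from the starting files (`Pool.Agent.H661R3.OP.SV`).
-/

set_option autoImplicit false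

open Finset

namespace Pool.Agent.Results.MP_d610d0_nt.EveryCube

/-- `m` is a product of at most `R` primes (with multiplicity), all of them larger than `y` -/
def AlmostPrime (R : ℕ) (y : ℝ) (m : ℕ) : Prop :=
  ArithmeticFunction.cardFactors m ≤ R ∧ ∀ p : ℕ, p.Prime → p ∣ m → y < p

/-- `m` and `m + 2` are products of at most `R` primes, all of them larger than `y`, and the number
of prime factors of `m + 2 h` (`h = 0` or `h = 1`), counted with multiplicity, has the parity of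
`s`. -/
def Twin (R : ℕ) (y : ℝ) (h s m : ℕ) : Prop :=
  AlmostPrime R y m ∧ AlmostPrime R y (m + 2) ∧
    ArithmeticFunction.cardFactors (m + 2 * h) % 2 = s % 2

theorem adm (p : ℕ) (hp : p.Prime) :
    ∃ n : ℤ, ∀ i : Fin 2, ¬ (p : ℤ) ∣ 1 * (0 + ((1 : ℕ) : ℤ) * n) + 2 * ((i : ℕ) : ℤ) := by
  by_cases h3 : p = 3
  · refine ⟨-1, fun i => ?_⟩
    subst h3
    fin_cases i <;> norm_num
  · refine ⟨1, fun i hd => ?_⟩
    have hle := hp.two_le
    fin_cases i
    · have h1 : (p : ℤ) ∣ 1 := by simpa using hd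
      have h2 : (p : ℤ) ≤ 1 := Int.le_of_dvd one_pos h1
      omega
    · have h1 : (p : ℤ) ∣ 3 := by simpa using hd
      have h2 : p ∣ 3 := by exact_mod_cast h1
      exact h3 ((Nat.prime_dvd_prime_iff_eq hp Nat.prime_three).1 h2)

theorem intervals (θ ε : ℝ) (hθ : 1 / 2 < θ) (hθ1 : θ ≤ 1) (hε : 0 < ε) :
    ∃ (R : ℕ) (δ : ℝ), 0 < δ ∧ ∃ x₀ : ℝ, ∀ x : ℝ, x₀ ≤ x → ∀ h s : ℕ, h ≤ 1 →
      x ^ (θ - ε) ≤
        ({m : ℕ | x < m ∧ (m : ℝ) ≤ x + x ^ θ ∧ Twin R (x ^ δ) h s m}.ncard : ℝ) := by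
  classical
  obtain ⟨R0, δ0, hδ0, x0, H0⟩ := Pool.Agent.W5h75.ST.every (Fin 2) (fun _ => 1)
    (fun i => 2 * ((i : ℕ) : ℤ)) 0 (fun _ => one_pos) 1 one_pos 0 adm θ ε hθ hθ1 hε
  obtain ⟨R1, δ1, hδ1, x1, H1⟩ := Pool.Agent.W5h75.ST.every (Fin 2) (fun _ => 1)
    (fun i => 2 * ((i : ℕ) : ℤ)) 1 (fun _ => one_pos) 1 one_pos 0 adm θ ε hθ hθ1 hε
  refine ⟨max R0 R1, min δ0 δ1, lt_min hδ0 hδ1, max 1 (max x0 x1), ?_⟩
  intro x hx h s hh
  have hx1 : 1 ≤ x := (le_max_left _ _).trans hx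
  have hxx0 : x0 ≤ x := ((le_max_left _ _).trans (le_max_right _ _)).trans hx
  have hxx1 : x1 ≤ x := ((le_max_right _ _).trans (le_max_right _ _)).trans hx
  have hfin : ∀ R y h s, {m : ℕ | x < m ∧ (m : ℝ) ≤ x + x ^ θ ∧ Twin R y h s m}.Finite := by
    intro R y h s
    apply (Set.finite_Iic ⌊x + x ^ θ⌋₊).subset
    intro m hm
    exact Nat.le_floor hm.2.1
  have hd0 : x ^ (min δ0 δ1) ≤ x ^ δ0 := Real.rpow_le_rpow_of_exponent_le hx1 (min_le_left _ _)
  have hd1 : x ^ (min δ0 δ1) ≤ x ^ δ1 := Real.rpow_le_rpow_of_exponent_le hx1 (min_le_right _ _)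
  have hz : ∀ N : ℕ, ((N : ℕ) : ZMod 2) = ((s : ℕ) : ZMod 2) ↔ N % 2 = s % 2 := by
    intro N
    exact ZMod.natCast_eq_natCast_iff' N s 2
  have hnn : ∀ n : ℕ, (1 * (n : ℤ) + 2 * (((1 : Fin 2) : ℕ) : ℤ)).natAbs = n + 2 := by
    intro n
    simp
    omega
  have hn0 : ∀ n : ℕ, (1 * (n : ℤ) + 2 * (((0 : Fin 2) : ℕ) : ℤ)).natAbs = n := by
    intro n
    simp
  rcases Nat.le_one_iff_eq_zero_or_eq_one.1 hh with rfl | rfl
  · refine (H0 x hxx0 ((s : ℕ) : ZMod 2)).trans (Nat.cast_le.2 (Set.ncard_le_ncard ?_ (hfin _ _ _ _)))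
    rintro n ⟨h1, h2, -, h3, h4⟩
    have k0 := h3 0
    have k1 := h3 1
    rw [hn0] at k0
    rw [hnn] at k1
    rw [hn0] at h4
    refine ⟨h1, h2, ⟨k0.2.1.trans (le_max_left _ _), fun p hp hpd => ?_⟩,
      ⟨k1.2.1.trans (le_max_left _ _), fun p hp hpd => ?_⟩, ?_⟩
    · refine lt_of_le_of_lt hd0 (k0.2.2 p hp ?_)
      have : (p : ℤ) ∣ n := by exact_mod_cast hpd
      simpa using this
    · refine lt_of_le_of_lt hd0 (k1.2.2 p hp ?_)
      have : (p : ℤ) ∣ ((n + 2 : ℕ) : ℤ) := by exact_mod_cast hpd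
      push_cast at this
      simpa using this
    · rw [mul_zero, add_zero]
      exact (hz _).1 h4
  · refine (H1 x hxx1 ((s : ℕ) : ZMod 2)).trans (Nat.cast_le.2 (Set.ncard_le_ncard ?_ (hfin _ _ _ _)))
    rintro n ⟨h1, h2, -, h3, h4⟩
    have k0 := h3 0
    have k1 := h3 1
    rw [hn0] at k0
    rw [hnn] at k1
    rw [hnn] at h4
    refine ⟨h1, h2, ⟨k0.2.1.trans (le_max_right _ _), fun p hp hpd => ?_⟩,
      ⟨k1.2.1.trans (le_max_right _ _), fun p hp hpd => ?_⟩, ?_⟩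
    · refine lt_of_le_of_lt hd1 (k0.2.2 p hp ?_)
      have : (p : ℤ) ∣ n := by exact_mod_cast hpd
      simpa using this
    · refine lt_of_le_of_lt hd1 (k1.2.2 p hp ?_)
      have : (p : ℤ) ∣ ((n + 2 : ℕ) : ℤ) := by exact_mod_cast hpd
      push_cast at this
      simpa using this
    · rw [mul_one]
      exact (hz _).1 h4

theorem cubes (ε : ℝ) (hε : 0 < ε) :
    ∃ (R : ℕ) (δ : ℝ), 0 < δ ∧ ∃ n₀ : ℕ, ∀ n : ℕ, n₀ ≤ n → ∀ h s : ℕ, h ≤ 1 →
      (n : ℝ) ^ (2 - ε) ≤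
        ({m : ℕ | n ^ 3 < m ∧ m + 2 < (n + 1) ^ 3 ∧ Twin R ((n : ℝ) ^ δ) h s m}.ncard : ℝ) := by
  obtain ⟨R, δ, hδ, x₀, H⟩ := intervals (2 / 3) (ε / 3) (by norm_num) (by norm_num) (by linarith)
  refine ⟨R, 3 * δ, by linarith, max 1 ⌈x₀⌉₊, ?_⟩
  intro n hn h s hh
  have hn1 : 1 ≤ n := (le_max_left _ _).trans hn
  have hnr : (1 : ℝ) ≤ n := by exact_mod_cast hn1
  have hn0 : (0 : ℝ) ≤ n := by linarith
  have hnx : x₀ ≤ n := (Nat.le_ceil _).trans (by exact_mod_cast (le_max_right _ _).trans hn)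
  have hcube : (n : ℝ) ≤ (n : ℝ) ^ 3 := by nlinarith [mul_nonneg hn0 hn0]
  have h1 := H ((n : ℝ) ^ 3) (hnx.trans hcube) h s hh
  have e1 : ((n : ℝ) ^ 3) ^ (2 / 3 - ε / 3 : ℝ) = (n : ℝ) ^ (2 - ε) := by
    rw [← Real.rpow_natCast, ← Real.rpow_mul hn0]
    congr 1
    push_cast
    ring
  have e2 : ((n : ℝ) ^ 3) ^ (2 / 3 : ℝ) = (n : ℝ) ^ 2 := by
    rw [← Real.rpow_natCast, ← Real.rpow_mul hn0, ← Real.rpow_natCast]
    congr 1
    push_cast
    ring
  have e3 : ((n : ℝ) ^ 3) ^ δ = (n : ℝ) ^ (3 * δ) := by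
    rw [← Real.rpow_natCast, ← Real.rpow_mul hn0]
    congr 1
  rw [e1, e2, e3] at h1
  refine h1.trans (Nat.cast_le.2 (Set.ncard_le_ncard ?_ ?_))
  · rintro m ⟨k1, k2, k3⟩
    refine ⟨by exact_mod_cast k1, ?_, k3⟩
    have k4 : m ≤ n ^ 3 + n ^ 2 := by exact_mod_cast k2
    nlinarith
  · apply (Set.finite_Iic ((n + 1) ^ 3)).subset
    intro m hm
    have := hm.2.1
    simp only [Set.mem_Iic]
    omega

/-- **Almost prime twins with prescribed parity in all short intervals, in particular between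
all consecutive cubes.** -/
theorem result :
    (∀ θ ε : ℝ, 1 / 2 < θ → θ ≤ 1 → 0 < ε → ∃ (R : ℕ) (δ : ℝ), 0 < δ ∧ ∃ x₀ : ℝ,
      ∀ x : ℝ, x₀ ≤ x → ∀ h s : ℕ, h ≤ 1 →
        x ^ (θ - ε) ≤
          ({m : ℕ | x < m ∧ (m : ℝ) ≤ x + x ^ θ ∧ Twin R (x ^ δ) h s m}.ncard : ℝ)) ∧
    ∀ ε : ℝ, 0 < ε → ∃ (R : ℕ) (δ : ℝ), 0 < δ ∧ ∃ n₀ : ℕ, ∀ n : ℕ, n₀ ≤ n → ∀ h s : ℕ, h ≤ 1 →
      (n : ℝ) ^ (2 - ε) ≤
        ({m : ℕ | n ^ 3 < m ∧ m + 2 < (n + 1) ^ 3 ∧ Twin R ((n : ℝ) ^ δ) h s m}.ncard : ℝ) :=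
  ⟨intervals, cubes⟩

end Pool.Agent.Results.MP_d610d0_nt.EveryCube
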